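import Pool.Agent.D0H10.BP.Stm

/-! # MEAN: the mean of a periodic function -/

set_option autoImplicit false

namespace Pool.Agent.D0H12.BP

open Finset Filter
open Pool.Agent.D0H10.PS Pool.Agent.D0H10.BP

theorem window (f : ℕ → ℝ) (p : ℕ) (hf : Function.Periodic f p) (N : ℕ) :
    ∑ i ∈ range p, f (N + i) = ∑ i ∈ range p, f i := by
  induction N with
  | zero => simp
  | succ N ih =>
    rw [← ih]
    have h1 := sum_range_succ (fun i => f (N + i)) p
    have h2 := sum_range_succ' (fun i => f (N + i)) p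
    rw [h1, hf N] at h2
    simp only [add_zero] at h2
    have h3 : ∑ i ∈ range p, f (N + 1 + i) = ∑ k ∈ range p, f (N + (k + 1)) :=
      sum_congr rfl fun i _ => by rw [add_assoc, add_comm 1 i]
    rw [h3]
    linarith

theorem mean_periodic (f : ℕ → ℝ) (p : ℕ) (hp : 0 < p) (hf : Function.Periodic f p) :
    HasMean f ((∑ n ∈ range p, f n) / p) := by
  set S := ∑ n ∈ range p, f n with hS
  have hp0 : (0 : ℝ) < p := by exact_mod_cast hp
  set E : ℕ → ℝ := fun N => ∑ n ∈ range N, f n - N * (S / p) with hE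
  have hEp : Function.Periodic E p := by
    intro N
    simp only [hE]
    rw [sum_range_add f N p, window f p hf N, ← hS]
    push_cast
    field_simp
    ring
  set C := ∑ i ∈ range p, |E i| with hC
  have hEb : ∀ N, |E N| ≤ C := by
    intro N
    rw [← hEp.map_mod_nat N]
    exact single_le_sum (f := fun i => |E i|) (fun i _ => abs_nonneg _)
      (mem_range.2 (Nat.mod_lt N hp))
  unfold HasMean
  rw [tendsto_iff_norm_sub_tendsto_zero]
  have hlim : Tendsto (fun N : ℕ => C / (N : ℝ)) atTop (nhds 0) :=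
    tendsto_const_div_atTop_nhds_zero_nat C
  refine squeeze_zero' (Eventually.of_forall fun N => norm_nonneg _) ?_ hlim
  filter_upwards [eventually_gt_atTop 0] with N hN
  have hN0 : (0 : ℝ) < N := by exact_mod_cast hN
  have e : (∑ n ∈ range N, f n) / (N : ℝ) - S / p = E N / N := by
    simp only [hE]
    field_simp
  rw [e, Real.norm_eq_abs, abs_div, abs_of_pos hN0]
  gcongr
  exact hEb N

theorem sum_mul_crt (f g : ℕ → ℝ) (p q : ℕ) (hp : 0 < p) (hq : 0 < q) (hpq : p.Coprime q)
    (hf : Function.Periodic f p) (hg : Function.Periodic g q) :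
    ∑ n ∈ range (p * q), f n * g n = (∑ x ∈ range p, f x) * ∑ y ∈ range q, g y := by
  rw [sum_mul_sum, ← sum_product']
  refine sum_nbij' (fun n => (n % p, n % q))
    (fun z => (Nat.chineseRemainder hpq z.1 z.2 : ℕ)) ?_ ?_ ?_ ?_ ?_
  · intro n _
    rw [mem_product, mem_range, mem_range]
    exact ⟨Nat.mod_lt n hp, Nat.mod_lt n hq⟩
  · intro z _
    rw [mem_range]
    exact Nat.chineseRemainder_lt_mul hpq z.1 z.2 hp.ne' hq.ne'
  · intro n hn
    rw [mem_range] at hn
    have h1 := Nat.chineseRemainder_modEq_unique hpq (a := n % p) (b := n % q) (z := n)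
      (Nat.mod_modEq n p).symm (Nat.mod_modEq n q).symm
    have h2 := Nat.chineseRemainder_lt_mul hpq (n % p) (n % q) hp.ne' hq.ne'
    exact (Nat.ModEq.eq_of_lt_of_lt h1 hn h2).symm
  · intro z hz
    rw [mem_product, mem_range, mem_range] at hz
    have h := (Nat.chineseRemainder hpq z.1 z.2).2
    refine Prod.ext ?_ ?_
    · show _ % p = z.1
      rw [h.1, Nat.mod_eq_of_lt hz.1]
    · show _ % q = z.2
      rw [h.2, Nat.mod_eq_of_lt hz.2]
  · intro n _
    show f n * g n = f (n % p) * g (n % q)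
    rw [hf.map_mod_nat, hg.map_mod_nat]

theorem t_MEAN : S_MEAN :=
  ⟨fun f p hp hf => mean_periodic f p hp hf,
    fun f g p q hp hq hpq hf hg => sum_mul_crt f g p q hp hq hpq hf hg⟩

end Pool.Agent.D0H12.BP
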