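import Pool.Agent.D0H10.BP.Stm

/-! # PROD: several primes -/

set_option autoImplicit false

open scoped Classical

namespace Pool.Agent.D0H12.BP

open Finset Filter
open Pool.Agent.D0H10.PS Pool.Agent.D0H10.BP

theorem t_PROD (hM : S_MEAN) : S_PROD := by
  obtain ⟨hM1, hM2⟩ := hM
  intro 𝓛
  induction 𝓛 using Finset.induction_on with
  | empty =>
    intro g s u N hg _ hP
    obtain ⟨P, hP0, hPg, hPs⟩ := hP
    have hper : Function.Periodic (fun n => g n * sg (s n)) P := by
      intro n
      show g (n + P) * sg (s (n + P)) = g n * sg (s n)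
      rw [hPg n, hPs n]
    refine ⟨_, hM1 _ P hP0 hper, ?_⟩
    have hP0' : (0 : ℝ) < P := by exact_mod_cast hP0
    rw [prod_empty, abs_div, abs_of_pos hP0', div_le_one hP0']
    refine (abs_sum_le_sum_abs _ _).trans ?_
    calc ∑ n ∈ range P, |g n * sg (s n)| ≤ ∑ _n ∈ range P, (1 : ℝ) := by
          apply sum_le_sum
          intro n _
          rw [abs_mul, abs_sg, mul_one]
          exact hg n
      _ = P := by simp
  | insert l 𝓛 hl ih =>
    intro g s u N hg h _
    obtain ⟨hlp, hN0, hlN, hgN, hul, hsN, hl'⟩ := h l (mem_insert_self l 𝓛)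
    set s' : ℕ → ZMod 2 := fun n => s n + u l n with hs'
    have hss : ∀ n, s n = u l n + s' n := by
      intro n
      simp only [hs']
      rw [add_comm (s n), ← add_assoc, CharTwo.add_self_eq_zero, zero_add]
    obtain ⟨μ', hμ', hμb⟩ := ih g s' u N hg (by
      intro m hm
      obtain ⟨hmp, hmN0, hmN, hgm, hum, hsm, hm'⟩ := h m (mem_insert_of_mem hm)
      have hne : l ≠ m := fun e => hl (e ▸ hm)
      refine ⟨hmp, hmN0, hmN, hgm, hum, ?_, fun l' h1 h2 => hm' l' (mem_insert_of_mem h1) h2⟩
      obtain ⟨k, hk⟩ := hm' l (mem_insert_self l 𝓛) hne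
      have hulm : Function.Periodic (u l) (N m) := by
        intro n
        have := hul.nat_mul k
        rw [hk, mul_comm]
        exact this n
      intro n
      have e1 := hsm n
      have e2 := hulm n
      simp only [hs'] at e1 ⊢
      rw [e2]
      linear_combination e1) ⟨N l, hN0, hgN, hsN⟩
    have hG : Function.Periodic (fun n => g n * sg (s' n)) (N l) := by
      intro n
      have e1 := hgN n
      have e2 := hsN n
      show g (n + N l) * sg (s' (n + N l)) = g n * sg (s' n)
      rw [e1]
      simp only [hs'] at e2 ⊢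
      rw [e2]
    have hU : Function.Periodic (fun n => sg (u l n)) l := by
      intro n
      show sg (u l (n + l)) = sg (u l n)
      rw [hul n]
    have hmean := hM1 _ (N l) hN0 hG
    have hμe : μ' = (∑ n ∈ range (N l), g n * sg (s' n)) / (N l : ℝ) :=
      tendsto_nhds_unique hμ' hmean
    have hfun : (fun n => g n * sg (s n)) = fun n => sg (u l n) * (g n * sg (s' n)) := by
      funext n
      rw [hss n, sg_add]
      ring
    have hlpos : 0 < l := hlp.pos
    have hperF : Function.Periodic (fun n => sg (u l n) * (g n * sg (s' n))) (l * N l) := by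
      intro n
      have e1 : sg (u l (n + l * N l)) = sg (u l n) := by
        have := hU.nat_mul (N l)
        rw [mul_comm]
        exact this n
      have e2 : g (n + l * N l) * sg (s' (n + l * N l)) = g n * sg (s' n) := by
        have := hG.nat_mul l
        exact this n
      show sg (u l (n + l * N l)) * (g (n + l * N l) * sg (s' (n + l * N l))) = _
      rw [e1, e2]
    have hco : l.Coprime (N l) := (Nat.Prime.coprime_iff_not_dvd hlp).2 hlN
    refine ⟨_, by rw [hfun]; exact hM1 _ (l * N l) (Nat.mul_pos hlpos hN0) hperF, ?_⟩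
    rw [hM2 (fun n => sg (u l n)) (fun n => g n * sg (s' n)) l (N l) hlpos hN0 hco hU hG]
    rw [prod_insert hl]
    have hl0 : (0 : ℝ) < l := by exact_mod_cast hlpos
    have hNl0 : (0 : ℝ) < N l := by exact_mod_cast hN0
    have e3 : (∑ x ∈ range l, sg (u l x)) * (∑ y ∈ range (N l), g y * sg (s' y)) /
        ((l * N l : ℕ) : ℝ) = (∑ x ∈ range l, sg (u l x)) / l * μ' := by
      rw [hμe]
      push_cast
      field_simp
    rw [e3, abs_mul, abs_div, abs_of_pos hl0]
    gcongr

end Pool.Agent.D0H12.BP
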